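import Pool.Agent.W928.MW.Stm

/-!
# The Diophantine inequality behind the fourth moment
-/

set_option autoImplicit false

namespace Pool.Agent.W225.MWD

theorem core (a b c d : ℝ) (hb0 : 0 ≤ b) (hs : a + b = c + d) (h1 : c ≤ a) (h2 : d ≤ a) (m : ℕ) :
    (a - c) * (a - d) * a ^ m ≤ a ^ (m + 2) + b ^ (m + 2) - c ^ (m + 2) - d ^ (m + 2) := by
  have hc : b ≤ c := by linarith
  have hd : b ≤ d := by linarith
  have ha : 0 ≤ a := by linarith
  induction m with
  | zero =>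
    have hb : b = c + d - a := by linarith
    have h3 := mul_nonneg (sub_nonneg.2 h1) (sub_nonneg.2 h2)
    have h4 : a ^ (0 + 2) + b ^ (0 + 2) - c ^ (0 + 2) - d ^ (0 + 2) = 2 * ((a - c) * (a - d)) := by
      rw [hb]
      ring
    rw [h4, pow_zero, mul_one]
    linarith
  | succ m ih =>
    have e1 : b ^ (m + 2) ≤ c ^ (m + 2) := pow_le_pow_left₀ hb0 hc _
    have e2 : b ^ (m + 2) ≤ d ^ (m + 2) := pow_le_pow_left₀ hb0 hd _
    have e3 := mul_nonneg (sub_nonneg.2 h1) (sub_nonneg.2 e1)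
    have e4 := mul_nonneg (sub_nonneg.2 h2) (sub_nonneg.2 e2)
    have e5 := mul_le_mul_of_nonneg_left ih ha
    have e6 : a ^ (m + 1 + 2) + b ^ (m + 1 + 2) - c ^ (m + 1 + 2) - d ^ (m + 1 + 2) =
        a * (a ^ (m + 2) + b ^ (m + 2) - c ^ (m + 2) - d ^ (m + 2)) +
          ((a - c) * (c ^ (m + 2) - b ^ (m + 2)) + (a - d) * (d ^ (m + 2) - b ^ (m + 2))) := by
      linear_combination (b ^ (m + 2)) * hs
    have e7 : (a - c) * (a - d) * a ^ (m + 1) = a * ((a - c) * (a - d) * a ^ m) := by ring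
    rw [e6, e7]
    linarith

theorem key (a b c d : ℝ) (ha0 : 0 ≤ a) (hb0 : 0 ≤ b) (hc0 : 0 ≤ c) (hd0 : 0 ≤ d)
    (hs : a + b = c + d) (m : ℕ) :
    |a - c| * |a - d| * (max (max a b) (max c d)) ^ m ≤
      |a ^ (m + 2) + b ^ (m + 2) - c ^ (m + 2) - d ^ (m + 2)| := by
  have hcase : (b ≤ a ∧ c ≤ a ∧ d ≤ a) ∨ (a ≤ b ∧ c ≤ b ∧ d ≤ b) ∨ (a ≤ c ∧ b ≤ c ∧ d ≤ c) ∨
      (a ≤ d ∧ b ≤ d ∧ c ≤ d) := by
    rcases le_total a b with h1 | h1 <;> rcases le_total c d with h2 | h2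
    · rcases le_total b d with h3 | h3
      · exact Or.inr (Or.inr (Or.inr ⟨h1.trans h3, h3, h2⟩))
      · exact Or.inr (Or.inl ⟨h1, h2.trans h3, h3⟩)
    · rcases le_total b c with h3 | h3
      · exact Or.inr (Or.inr (Or.inl ⟨h1.trans h3, h3, h2⟩))
      · exact Or.inr (Or.inl ⟨h1, h3, h2.trans h3⟩)
    · rcases le_total a d with h3 | h3
      · exact Or.inr (Or.inr (Or.inr ⟨h3, h1.trans h3, h2⟩))
      · exact Or.inl ⟨h1, h2.trans h3, h3⟩
    · rcases le_total a c with h3 | h3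
      · exact Or.inr (Or.inr (Or.inl ⟨h3, h1.trans h3, h2⟩))
      · exact Or.inl ⟨h1, h3, h2.trans h3⟩
  rcases hcase with ⟨h1, h2, h3⟩ | ⟨h1, h2, h3⟩ | ⟨h1, h2, h3⟩ | ⟨h1, h2, h3⟩
  · have e1 : max (max a b) (max c d) = a := by
      rw [max_eq_left h1, max_eq_left (max_le h2 h3)]
    rw [e1, abs_of_nonneg (sub_nonneg.2 h2), abs_of_nonneg (sub_nonneg.2 h3)]
    exact (core a b c d hb0 hs h2 h3 m).trans (le_abs_self _)
  · have e1 : max (max a b) (max c d) = b := by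
      rw [max_eq_right h1, max_eq_left (max_le h2 h3)]
    have e2 : |a - c| = b - d := by
      rw [show a - c = -(b - d) by linarith, abs_neg, abs_of_nonneg (sub_nonneg.2 h3)]
    have e3 : |a - d| = b - c := by
      rw [show a - d = -(b - c) by linarith, abs_neg, abs_of_nonneg (sub_nonneg.2 h2)]
    rw [e1, e2, e3]
    have e4 := core b a d c ha0 (by linarith) h3 h2 m
    refine le_trans (e4.trans (le_of_eq ?_)) (le_abs_self _)
    ring
  · have e1 : max (max a b) (max c d) = c := by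
      rw [max_eq_left h3, max_eq_right (max_le h1 h2)]
    have e2 : |a - c| = c - a := by
      rw [abs_sub_comm, abs_of_nonneg (sub_nonneg.2 h1)]
    have e3 : |a - d| = c - b := by
      rw [show a - d = c - b by linarith, abs_of_nonneg (sub_nonneg.2 h2)]
    rw [e1, e2, e3]
    have e4 := core c d a b hd0 (by linarith) h1 h2 m
    refine le_trans (e4.trans (le_of_eq ?_)) (neg_le_abs _)
    ring
  · have e1 : max (max a b) (max c d) = d := by
      rw [max_eq_right h3, max_eq_right (max_le h1 h2)]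
    have e2 : |a - c| = d - b := by
      rw [show a - c = d - b by linarith, abs_of_nonneg (sub_nonneg.2 h2)]
    have e3 : |a - d| = d - a := by
      rw [abs_sub_comm, abs_of_nonneg (sub_nonneg.2 h1)]
    rw [e1, e2, e3]
    have e4 := core d c b a hc0 (by linarith) h2 h1 m
    refine le_trans (e4.trans (le_of_eq ?_)) (neg_le_abs _)
    ring

theorem t : Pool.Agent.W928.MW.S_DIO := by
  intro k x1 x2 y1 y2 hk hs
  obtain ⟨m, rfl⟩ : ∃ m, k = m + 2 := ⟨k - 2, by omega⟩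
  rw [Nat.add_sub_cancel]
  exact key x1 x2 y1 y2 (Nat.cast_nonneg _) (Nat.cast_nonneg _) (Nat.cast_nonneg _)
    (Nat.cast_nonneg _) (by exact_mod_cast hs) m

end Pool.Agent.W225.MWD
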