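import Pool.Agent.W886.MZ.Stm0

/-!
# `NP` is not small relative to a random oracle, even after finitely many changes
-/

set_option autoImplicit false

namespace Pool.Agent.W225.MZ

open MeasureTheory Pool.Agent.NPC
open Pool.Agent.H620R2.Gauge Pool.Agent.W911.KM Pool.Agent.W911.AL
open Pool.Agent.H628R3.RO (randomOracle)

/-- questions to `A` as questions to the join -/
def liftD (D : List Bool → List Bool) (v : List Bool) : List Bool :=
  if (D v).head? = some false then false :: D v else D v

theorem isFP_lift {A : Oracle} (B : Set (List Bool)) {F : List Bool → List Bool}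
    (hF : IsFP A F) : IsFP (join A B) F := by
  obtain ⟨M, hM⟩ := hF
  have hD := Pool.Agent.H622R2.poly_of_polyTime M.poly
  refine ⟨⟨liftD M.D, Pool.Agent.H622R2.polyTime_of_poly_list
    (Poly.ite (Poly.decide_eq (Poly.head? hD)
    (NPC.Poly.const _)) (Poly.cons (NPC.Poly.const false) hD) hD), M.p⟩, fun x => ?_⟩
  rw [← hM x]
  unfold Alg.out
  simp only
  generalize M.p.eval x.length = n
  generalize ([] : List Bool) = a
  induction n generalizing a with
  | zero => rfl
  | succ n ih =>
    rw [Alg.run, Alg.run]
    simp only [liftD]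
    rcases hq : M.D (pairBits x a) with _ | ⟨c, q⟩
    · simp
    · cases c with
      | true => simp
      | false =>
        simp only [List.head?_cons, if_true]
        exact ih _

theorem sigma_zero_empty (A : Oracle) : IsSigma A (fun _ => 0) ∅ := by
  refine ⟨fun _ => [], 0, IsFP.of_poly (NPC.Poly.const []), fun x => ?_⟩
  simp [Alt]

theorem np_of_sigma {A : Oracle} {L : Set (List Bool)} (h : IsSigma A (fun _ => 1) L) :
    IsNP A L := by
  obtain ⟨V, p, hV, hx⟩ := h
  refine ⟨fun y => V (gg p 1 y), p, hV.precomp (poly_gg p 1), fun x => ?_⟩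
  rw [hx x]
  exact (quant_alt p 1 V x 1 0 true x [] (by omega) rfl).symm

theorem lift {A : Oracle} {X Y : Set (Set (List Bool))} (h : NullP A X) (hYX : Y ⊆ X)
    (B : Set (List Bool)) : NullP (join A B) Y := by
  obtain ⟨d, ⟨h0, h1, h2, h3⟩, F, hF, hFd⟩ := h
  exact ⟨d, ⟨h0, h1, h2, fun k L hL => h3 k L (hYX hL)⟩, F, isFP_lift B hF, hFd⟩

theorem np_fair : ∀ᵐ A ∂fair, ¬ NullP A {L | IsNP A L} := by
  filter_upwards [exact_ae] with A hA h
  have h1 := (hA 1 0).1 ⟨∅, sigma_zero_empty A, lift h (fun L hL => np_of_sigma hL) ∅⟩
  omega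

theorem fair_eq : fair = randomOracle := by
  have h : Pool.Agent.W911.IB.coin ⟨1 / 2, by norm_num, by norm_num⟩ =
      Pool.Agent.H628R3.RO.coin := by
    unfold Pool.Agent.W911.IB.coin Pool.Agent.H628R3.RO.coin
    have h1 : ENNReal.ofReal (1 / 2) = 2⁻¹ := by
      rw [one_div, ENNReal.ofReal_inv_of_pos (by norm_num)]
      simp
    have h2 : (1 : ℝ) - 1 / 2 = 1 / 2 := by norm_num
    simp only [h2, h1]
  unfold fair Pool.Agent.W911.IB.law randomOracle
  simp only [h]

/-- finitely many changes -/
def tg (D : Finset (List Bool)) (O : Oracle) : Oracle := fun y => if y ∈ D then !(O y) else O y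

theorem map_tg (D : Finset (List Bool)) : randomOracle.map (tg D) = randomOracle := by
  have h := Measure.infinitePi_map_pi (μ := fun _ : List Bool => Pool.Agent.H628R3.RO.coin)
    (f := fun y (b : Bool) => if y ∈ D then !b else b) (fun y => measurable_of_countable _)
  unfold randomOracle
  refine h.trans ?_
  congr 1
  funext y
  by_cases hy : y ∈ D
  · simp only [hy, if_true]
    have hm : Measurable (fun b : Bool => !b) := measurable_of_countable _
    unfold Pool.Agent.H628R3.RO.coin
    rw [Measure.map_add _ _ hm, Measure.map_smul, Measure.map_smul, Measure.map_dirac' hm,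
      Measure.map_dirac' hm]
    simp only [Bool.not_true, Bool.not_false]
    exact add_comm _ _
  · simp only [hy, if_false]
    exact Measure.map_id

theorem measurable_tg (D : Finset (List Bool)) : Measurable (tg D) := by
  refine measurable_pi_lambda _ fun y => ?_
  have hm : Measurable (fun b : Bool => if y ∈ D then !b else b) := measurable_of_countable _
  exact hm.comp (measurable_pi_apply y)

theorem task : Pool.Agent.W886.MZ.S_FIN := by
  have h1 : ∀ᵐ A ∂randomOracle, ¬ NullP A {L | IsNP A L} := by
    rw [← fair_eq]
    exact np_fair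
  have h2 : ∀ᵐ O ∂randomOracle, ∀ D : Finset (List Bool),
      ¬ NullP (tg D O) {L | IsNP (tg D O) L} := by
    rw [ae_all_iff]
    intro D
    have h3 : MeasurePreserving (tg D) randomOracle randomOracle := ⟨measurable_tg D, map_tg D⟩
    exact h3.quasiMeasurePreserving.ae h1
  filter_upwards [h2] with O hO A hA
  have h3 : tg hA.toFinset O = A := by
    funext y
    unfold tg
    by_cases hy : A y = O y
    · have : y ∉ hA.toFinset := by simpa using hy
      rw [if_neg this, hy]
    · have : y ∈ hA.toFinset := by simpa using hy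
      rw [if_pos this]
      revert hy
      cases A y <;> cases O y <;> simp
  rw [← h3]
  exact hO _

end Pool.Agent.W225.MZ
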