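import Pool.Agent.W982.TA.Grid

/-!
# Soundness of unit propagation
-/

set_option autoImplicit false

namespace Pool.Agent.W982.TA

/-- all the known assertions are true -/
def KInv (σ : ℕ) (K : List (ℕ × Bool)) : Prop := ∀ b ∈ K, σ.testBit b.1 = b.2

theorem known_true {σ : ℕ} {K : List (ℕ × Bool)} (hK : KInv σ K) {a : ℕ × Bool}
    (h : known K a = true) : σ.testBit a.1 = a.2 := by
  unfold known at h
  rw [List.any_eq_true] at h
  obtain ⟨b, hb, h⟩ := h
  rw [Bool.and_eq_true, beq_iff_eq, beq_iff_eq] at h
  rw [← h.1, ← h.2]
  exact hK b hb

theorem upStep_ok (σ : ℕ) : ∀ (cs : List Claim) (K : List (ℕ × Bool)),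
    (∀ c ∈ cs, viol σ c = false) → KInv σ K → ∃ K', upStep cs K = some K' ∧ KInv σ K' := by
  intro cs
  induction cs with
  | nil => exact fun K _ hK => ⟨K, rfl, hK⟩
  | cons c cs ih =>
    intro K hc hK
    have hc0 : viol σ c = false := hc c (List.mem_cons_self ..)
    have hc1 : ∀ c ∈ cs, viol σ c = false := fun c' h => hc c' (List.mem_cons_of_mem _ h)
    unfold upStep
    split
    · rename_i h
      exfalso
      have h1 : viol σ c = true := by
        unfold viol
        rw [List.all_eq_true]
        intro a ha
        rw [beq_iff_eq]
        by_cases hk : known K a = true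
        · exact known_true hK hk
        · exfalso
          have h2 : a ∈ c.asm.filter (fun a => !known K a) := by
            rw [List.mem_filter]
            exact ⟨ha, by simpa using hk⟩
          rw [h] at h2
          exact absurd h2 (List.not_mem_nil)
      rw [h1] at hc0
      exact Bool.noConfusion hc0
    · rename_i a h
      refine ih _ hc1 ?_
      intro b hb
      rcases List.mem_cons.1 hb with rfl | hb
      · by_contra hne
        have hat : σ.testBit a.1 = a.2 := by
          change ¬ σ.testBit a.1 = !a.2 at hne
          cases h5 : σ.testBit a.1 <;> cases h6 : a.2 <;> simp_all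
        have h1 : viol σ c = true := by
          unfold viol
          rw [List.all_eq_true]
          intro a' ha
          rw [beq_iff_eq]
          by_cases hk : known K a' = true
          · exact known_true hK hk
          · have h2 : a' ∈ c.asm.filter (fun a => !known K a) := by
              rw [List.mem_filter]
              exact ⟨ha, by simpa using hk⟩
            rw [h, List.mem_singleton] at h2
            rw [h2]
            exact hat
        rw [h1] at hc0
        exact Bool.noConfusion hc0
      · exact hK b hb
    · exact ih _ hc1 hK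

theorem upr_ok (σ : ℕ) (cs : List Claim) (hc : ∀ c ∈ cs, viol σ c = false) : ∀ (n : ℕ)
    (K : List (ℕ × Bool)), KInv σ K → upr cs n K = false := by
  intro n
  induction n with
  | zero => exact fun K _ => rfl
  | succ n ih =>
    intro K hK
    obtain ⟨K', h1, h2⟩ := upStep_ok σ cs K hc hK
    unfold upr
    rw [h1]
    exact ih K' h2

theorem u1 : TaskU1 := by
  intro T g h
  unfold goalUP at h
  rw [Bool.and_eq_true] at h
  unfold goalOK
  rw [Bool.and_eq_true]
  refine ⟨h.1, ?_⟩
  rw [List.all_eq_true]
  intro σ _
  rw [Bool.or_eq_true]
  by_contra hno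
  rw [not_or] at hno
  obtain ⟨h1, h2⟩ := hno
  have h3 : ∀ c ∈ T.claims, viol σ c = false := by
    intro c hc
    by_contra h4
    exact h1 (List.any_eq_true.2 ⟨c, hc, by simpa using h4⟩)
  have h4 : KInv σ (g.map fun a => (a.1, a.2.2)) := by
    intro b hb
    obtain ⟨a, ha, rfl⟩ := List.mem_map.1 hb
    by_contra h5
    exact h2 (List.any_eq_true.2 ⟨a, ha, by simpa using h5⟩)
  have h5 := upr_ok σ T.claims h3 12 _ h4
  rw [h5] at h
  exact absurd h.2 (by decide)

end Pool.Agent.W982.TA
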